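import Pool.Agent.H47.Trop.Main
import Pool.Agent.H47.Trop.Noniso

set_option autoImplicit false

/-!
# MP_3ce8eb_ag: skeletons of smooth tropical complete intersections of degrees 2 and 3

The definitions are in `Pool/Agent/H47/Trop/Defs.lean`; the list `graphs` of 14 explicit graphs is in
`Pool/Agent/H47/Trop/Data.lean`.
-/

namespace Pool.Agent.Results.MP_3ce8eb_ag.Skeletons

open Pool.Agent.H47.Trop

/-- (1) A connected trivalent graph `G` of genus 4 is the skeleton of a smooth tropical curve
`T(p) ∩ T(q)` with `p` of degree 2 and `q` of degree 3 if and only if it is not sprawling, if and only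
if it is isomorphic to one of the 14 graphs of the list `graphs`. (2) The 14 graphs are connected,
trivalent and of genus 4, and (3) they are pairwise not isomorphic. -/
theorem result :
    (∀ (W : Type) (G : MGraph W), Connected G → Trivalent G → HasGenus G 4 →
      ((∃ p q : TPoly, p.HasDegree 2 ∧ q.HasDegree 3 ∧ Smooth p q ∧ IsSkeleton (curve p q) G) ↔
        ¬ Sprawling G) ∧
      (¬ Sprawling G ↔ ∃ (i : Fin 14) (f : Fin 6 → W), Function.Injective f ∧
        G = (graphs i).map (Sym2.map f))) ∧
    (∀ i : Fin 14, Connected (graphs i) ∧ Trivalent (graphs i) ∧ HasGenus (graphs i) 4) ∧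
    ∀ (i j : Fin 14) (f : Fin 6 → Fin 6), Function.Injective f →
      graphs j = (graphs i).map (Sym2.map f) → i = j := by
  refine ⟨fun W G hc ht hg => ⟨classification hc ht hg, fun h => ?_, ?_⟩,
    fun i => ⟨graphs_connected i, graphs_trivalent i, graphs_genus i⟩,
    fun i j f hf h => graphs_noniso hf h⟩
  · exact (classify hc ht hg).resolve_left h
  · rintro ⟨i, f, hf, hG⟩
    exact not_sprawling hc ht hg (ex_degree i).1 (ex_degree i).2 (ex_smooth i)
      (example_skeleton i hf hG)

end Pool.Agent.Results.MP_3ce8eb_ag.Skeletons
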